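import Pool.Agent.Helper102.RZ.Final
import Pool.Agent.Helper732.HN.ForceCH

set_option autoImplicit false

open Set Topology

namespace Pool.Agent.Results.MP_7c9e3d_gt.ConsistentlyNo

open Pool.Agent.Helper732.HN.ForceCH (OmegaOnePreserved CHHolds)
open Pool.Agent.Helper102.RZ (CH)

/-!
A hereditarily normal 3-manifold with a `G_δ`-diagonal which is not metrizable, from the continuum
hypothesis, together with a forcing notion which forces the continuum hypothesis over any ground
model.

The manifold `M` is the union of an open half space `H` of `ℝ³` and of closed rays `I_α`,
`α < ω₁`, with a continuous map `F` to the closed half space which is the identity on `H` and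
constant on each ray, with distinct values `z_α` in the boundary plane.  The ray `I_α` is attached to
`H ∪ ⋃_{β<α} I_β` along a chart `ℝ³ → M` which is, off a closed half line, the composition of the
explicit homeomorphism `E0` onto the half space and of an infinite product of homeomorphisms with
supports in small disjoint open sets `N_i` with `F(N_i) → z_α`, so that each point of `I_α` is a
limit point of each countable set `A` of an enumeration (by CH) with `z_α` in the closure of
`F(A)`.  Each ray meets at most one of the sets `N_i`, in a set of diameter `≤ 1/(i+1)`; this gives
the `G_δ`-diagonal.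
-/

/-- **Main theorem.**  (A) Some notion of forcing `P` of type `Type` forces, below every condition,
that `ω₁` is preserved and that the continuum hypothesis holds (a theorem on the explicit forcing
relation).  (B) The continuum hypothesis implies that there is a connected Hausdorff 3-manifold `M`,
all of whose subspaces are normal and separable, with a `G_δ`-diagonal, which is not metrizable. -/
theorem result :
    (∃ (P : Type) (_ : Preorder P), Nonempty P ∧ ∀ p : P,
      p ∈ OmegaOnePreserved P ∧ p ∈ CHHolds P) ∧
    (CH → ∃ (M : Type) (_ : TopologicalSpace M) (_ : ChartedSpace (EuclideanSpace ℝ (Fin 3)) M),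
      T2Space M ∧ ConnectedSpace M ∧ (∀ Y : Set M, NormalSpace Y) ∧
      (∀ Y : Set M, TopologicalSpace.SeparableSpace Y) ∧ IsGδ (diagonal M) ∧
      ¬ TopologicalSpace.MetrizableSpace M) := by
  refine ⟨?_, Pool.Agent.Helper102.RZ.main⟩
  obtain ⟨P, hP, hne, h⟩ := Pool.Agent.Helper732.HN.ForceCH.exists_forcing
  exact ⟨P, hP, hne, fun p => ⟨(h p).1, (h p).2.2⟩⟩

end Pool.Agent.Results.MP_7c9e3d_gt.ConsistentlyNo
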