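import Mathlib
import Pool.Agent.Helper761.StarSep2

set_option autoImplicit false

namespace Pool.Agent.Results.MP_7c9e3d_gt.NearStars

open Set Topology

/-- Every hereditarily normal manifold with a sequence of open covers `G k` such that for distinct
points `x`, `y` all points near `x` lie, for some `k`, in the star of `x` but not in the star
of `y`, is metrizable. -/
theorem result :
    ∀ (n : ℕ) (X : Type) [TopologicalSpace X] [T2Space X]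
      [ChartedSpace (EuclideanSpace ℝ (Fin n)) X],
      T5Space X →
      (∃ G : ℕ → Set (Set X), (∀ k, ∀ s ∈ G k, IsOpen s) ∧ (∀ k, ⋃₀ G k = univ) ∧
        ∀ x y : X, x ≠ y →
          (⋃ k, (⋃₀ {s ∈ G k | x ∈ s}) \ (⋃₀ {s ∈ G k | y ∈ s})) ∈ 𝓝 x) →
      TopologicalSpace.MetrizableSpace X := by
  rintro n X _ _ _ hT5 ⟨G, hGo, hGc, hG⟩
  haveI := hT5
  haveI : LocallyCompactSpace X := ChartedSpace.locallyCompactSpace (EuclideanSpace ℝ (Fin n)) X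
  haveI : LocallyConnectedSpace X :=
    ChartedSpace.locallyConnectedSpace (EuclideanSpace ℝ (Fin n)) X
  refine Pool.Agent.Helper761.SS.main ?_
    (fun d => range (fun k => ⋃₀ {s ∈ G k | d ∈ s})) ⟨fun d => countable_range _, ?_, ?_⟩
  · intro x
    refine ⟨(chartAt (EuclideanSpace ℝ (Fin n)) x).source, (chartAt _ x).open_source,
      mem_chart_source _ x, ?_⟩
    exact (chartAt (EuclideanSpace ℝ (Fin n)) x).secondCountableTopology_source
  · rintro d _ ⟨k, rfl⟩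
    exact isOpen_sUnion fun s hs => hGo k s hs.1
  · intro D p b hp hpb
    obtain ⟨d, hd, hdD⟩ := mem_closure_iff_nhds.1 hp _ (hG p b hpb)
    obtain ⟨k, ⟨s, ⟨hs, hps⟩, hds⟩, hdn⟩ := mem_iUnion.1 hd
    refine ⟨d, hdD, _, ⟨k, rfl⟩, ⟨s, ⟨hs, hds⟩, hps⟩, ?_⟩
    rintro ⟨s', ⟨hs', hds'⟩, hbs'⟩
    exact hdn ⟨s', ⟨hs', hbs'⟩, hds'⟩

/-- The hypothesis of `result` holds for every strong G-delta diagonal sequence. -/
theorem of_strong {X : Type} [TopologicalSpace X] (G : ℕ → Set (Set X))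
    (hGo : ∀ k, ∀ s ∈ G k, IsOpen s) (hGc : ∀ k, ⋃₀ G k = univ)
    (hG : ∀ x y : X, x ≠ y → ∃ k, y ∉ closure (⋃₀ {s ∈ G k | x ∈ s})) (x y : X) (hxy : x ≠ y) :
    (⋃ k, (⋃₀ {s ∈ G k | x ∈ s}) \ (⋃₀ {s ∈ G k | y ∈ s})) ∈ 𝓝 x := by
  obtain ⟨k, hk⟩ := hG y x hxy.symm
  obtain ⟨s, hs, hxs⟩ := mem_sUnion.1 ((hGc k).symm ▸ mem_univ x : x ∈ ⋃₀ G k)
  refine Filter.mem_of_superset
    ((isClosed_closure.isOpen_compl.inter (hGo k s hs)).mem_nhds ⟨hk, hxs⟩) ?_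
  rintro z ⟨hz1, hz2⟩
  exact mem_iUnion.2 ⟨k, ⟨s, ⟨hs, hxs⟩, hz2⟩, fun h => hz1 (subset_closure h)⟩

end Pool.Agent.Results.MP_7c9e3d_gt.NearStars
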